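import Pool.Agent.H24.Fs4

namespace Pool.Agent.Results.MP_e3bf5d_lc.Hierarchy

open Pool.Agent.H24.Fs

theorem result (n : ℕ) :
    (∀ (T : Type) (L : Language T), FSPDA n L → FSPDA (n + 1) L) ∧
      ∃ (T : Type) (_ : Finite T) (L : Language T), FSPDA (n + 1) L ∧ ¬ FSPDA n L :=
  ⟨fun _ L h => (char1 L).2 (ch_succ ((char1 L).1 h)),
    _, inferInstance, LW (n + 2), (char1 _).2 (ch_LW _), fun h => not_ch n ((char1 _).1 h)⟩

end Pool.Agent.Results.MP_e3bf5d_lc.Hierarchy
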